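import Mathlib

/-!
# The simple exclusion process on a segment in a site-dependent environment: definitions
-/

set_option autoImplicit false

open scoped ENNReal NNReal

namespace Pool.Agent.H96.Exclusion

/-- Configurations with exactly `k` particles: the set of occupied sites. The element `i : Fin N`
is the site `i + 1` of `[N] = {1, …, N}`. -/
abbrev Config (N k : ℕ) : Type := {η : Finset (Fin N) // η.card = k}

/-- Rate at which a particle at `x` tries to jump to `y`: `ω x` to the right neighbour,
`1 - ω x` to the left neighbour, `0` otherwise. -/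
noncomputable def siteRate {N : ℕ} (ω : Fin N → ℝ) (x y : Fin N) : ℝ :=
  if (y : ℕ) = (x : ℕ) + 1 then ω x else if (x : ℕ) = (y : ℕ) + 1 then 1 - ω x else 0

/-- Rate of the transition `η → ζ` of the simple exclusion process in the environment `ω`: the
sum of the rates of the jumps of one particle from an occupied `x` to an empty `y` which turn
`η` into `ζ`. -/
noncomputable def jumpRate {N k : ℕ} (ω : Fin N → ℝ) (η ζ : Config N k) : ℝ :=
  ∑ x : Fin N, ∑ y : Fin N,
    if x ∈ η.1 ∧ y ∉ η.1 ∧ ζ.1 = insert y (η.1.erase x) then siteRate ω x y else 0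

/-- Generator (rate matrix) of the simple exclusion process. -/
noncomputable def generator {N k : ℕ} (ω : Fin N → ℝ) : Matrix (Config N k) (Config N k) ℝ :=
  Matrix.of fun η ζ => jumpRate ω η ζ - if η = ζ then ∑ ξ, jumpRate ω η ξ else 0

/-- The law at time `t` of the exclusion process started at `η`: the row `η` of the transition
matrix `exp (t • generator ω)`. -/
noncomputable def law {N k : ℕ} (ω : Fin N → ℝ) (t : ℝ) (η : Config N k) : Config N k → ℝ :=
  NormedSpace.exp (t • generator (k := k) ω) η

/-- Stationary distributions. -/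
def IsStationary {N k : ℕ} (ω : Fin N → ℝ) (π : Config N k → ℝ) : Prop :=
  (∀ η, 0 ≤ π η) ∧ ∑ η, π η = 1 ∧ ∀ t : ℝ, 0 ≤ t → ∀ ζ, ∑ η, π η * law ω t η ζ = π ζ

/-- Total variation distance. -/
noncomputable def tv {N k : ℕ} (p q : Config N k → ℝ) : ℝ := (∑ η, |p η - q η|) / 2

/-- The `1/4` mixing time (`⊤` if the total variation distance never gets below `1/4`). -/
noncomputable def mixingTime {N : ℕ} (k : ℕ) (ω : Fin N → ℝ) : ℝ≥0∞ :=
  ⨅ (t : ℝ≥0) (_ : ∃ π : Config N k → ℝ, IsStationary ω π ∧ ∀ η, tv (law ω t η) π ≤ 1 / 4),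
    (t : ℝ≥0∞)

end Pool.Agent.H96.Exclusion
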