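import Mathlib

/-!
Elementary facts on the semigroup `exp (t Q)` of a finite continuous-time Markov chain.
-/

set_option autoImplicit false

open scoped Matrix

namespace Pool.Agent.H96

variable {S : Type*} [Fintype S] [DecidableEq S]

/-- Entrywise exponential series of a real matrix. -/
theorem hasSum_exp_entry (A : Matrix S S ℝ) (i j : S) :
    HasSum (fun n : ℕ => ((n.factorial : ℝ)⁻¹ • A ^ n) i j) (NormedSpace.exp A i j) := by
  let _ : NormedRing (Matrix S S ℝ) := Matrix.linftyOpNormedRing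
  let _ : NormedAlgebra ℝ (Matrix S S ℝ) := Matrix.linftyOpNormedAlgebra
  have h : HasSum (fun n : ℕ => (n.factorial : ℝ)⁻¹ • A ^ n) (NormedSpace.exp A) :=
    NormedSpace.exp_series_hasSum_exp' A
  have h2 := (Pi.hasSum.1 h) i
  exact (Pi.hasSum.1 h2) j

theorem pow_entry_nonneg (A : Matrix S S ℝ) (hA : ∀ i j, 0 ≤ A i j) (n : ℕ) (i j : S) :
    0 ≤ (A ^ n) i j := by
  induction n generalizing i j with
  | zero =>
    rw [pow_zero, Matrix.one_apply]
    split_ifs <;> norm_num
  | succ n ih =>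
    rw [pow_succ, Matrix.mul_apply]
    exact Finset.sum_nonneg fun k _ => mul_nonneg (ih i k) (hA k j)

theorem exp_entry_nonneg_of_nonneg (A : Matrix S S ℝ) (hA : ∀ i j, 0 ≤ A i j) (i j : S) :
    0 ≤ NormedSpace.exp A i j := by
  refine (hasSum_exp_entry A i j).nonneg fun n => ?_
  simp only [Matrix.smul_apply, smul_eq_mul]
  exact mul_nonneg (by positivity) (pow_entry_nonneg A hA n i j)

/-- Positivity of `exp A` when the off-diagonal entries of `A` are nonnegative. -/
theorem exp_entry_nonneg (A : Matrix S S ℝ) (hA : ∀ i j, i ≠ j → 0 ≤ A i j) (i j : S) :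
    0 ≤ NormedSpace.exp A i j := by
  classical
  set c : ℝ := ∑ k, |A k k| with hc
  have hdec : A = (A + c • (1 : Matrix S S ℝ)) + Matrix.diagonal (fun _ : S => -c) := by
    ext a b
    by_cases hab : a = b
    · subst hab; simp
    · simp [hab, Matrix.one_apply]
  have hcomm : Commute (A + c • (1 : Matrix S S ℝ)) (Matrix.diagonal (fun _ : S => -c)) := by
    have : Matrix.diagonal (fun _ : S => -c) = (-c) • (1 : Matrix S S ℝ) := by
      ext a b
      by_cases hab : a = b
      · subst hab; simp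
      · simp [hab, Matrix.one_apply]
    rw [this]
    exact (Commute.one_right _).smul_right _
  rw [hdec, Matrix.exp_add_of_commute _ _ hcomm, Matrix.exp_diagonal, Matrix.mul_diagonal]
  refine mul_nonneg (exp_entry_nonneg_of_nonneg _ (fun a b => ?_) i j) ?_
  · by_cases hab : a = b
    · subst hab
      have h1 : |A a a| ≤ c := Finset.single_le_sum (f := fun k => |A k k|)
        (fun k _ => abs_nonneg _) (Finset.mem_univ a)
      have h2 : -|A a a| ≤ A a a := neg_abs_le _
      simp only [Matrix.add_apply, Matrix.smul_apply, Matrix.one_apply_eq, smul_eq_mul, mul_one]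
      linarith
    · simp only [Matrix.add_apply, Matrix.smul_apply, Matrix.one_apply_ne hab, smul_eq_mul,
        mul_zero, add_zero]
      exact hA a b hab
  · rw [Pi.coe_exp, ← Real.exp_eq_exp_ℝ]
    exact (Real.exp_pos _).le

/-- Derivative of `t ↦ (exp (t Q) g) i`. -/
theorem hasDerivAt_semigroup (Q : Matrix S S ℝ) (g : S → ℝ) (i : S) (t : ℝ) :
    HasDerivAt (fun u : ℝ => (NormedSpace.exp (u • Q) *ᵥ g) i)
      ((NormedSpace.exp (t • Q) *ᵥ (Q *ᵥ g)) i) t := by
  let _ : NormedRing (Matrix S S ℝ) := Matrix.linftyOpNormedRing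
  let _ : NormedAlgebra ℝ (Matrix S S ℝ) := Matrix.linftyOpNormedAlgebra
  have h : HasDerivAt (fun u : ℝ => NormedSpace.exp (u • Q)) (NormedSpace.exp (t • Q) * Q) t :=
    hasDerivAt_exp_smul_const Q t
  have h1 : ∀ j, HasDerivAt (fun u : ℝ => NormedSpace.exp (u • Q) i j)
      ((NormedSpace.exp (t • Q) * Q) i j) t := by
    intro j
    have h2 := (hasDerivAt_pi.1 h) i
    exact (hasDerivAt_pi.1 h2) j
  have h3 : HasDerivAt (fun u : ℝ => ∑ j, NormedSpace.exp (u • Q) i j * g j)
      (∑ j, (NormedSpace.exp (t • Q) * Q) i j * g j) t :=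
    HasDerivAt.fun_sum fun j _ => (h1 j).mul_const (g j)
  rw [Matrix.mulVec_mulVec]
  exact h3

theorem exp_zero_mulVec (Q : Matrix S S ℝ) (g : S → ℝ) :
    NormedSpace.exp ((0 : ℝ) • Q) *ᵥ g = g := by
  have : NormedSpace.exp ((0 : ℝ) • Q) = 1 := by
    rw [zero_smul]
    let _ : NormedRing (Matrix S S ℝ) := Matrix.linftyOpNormedRing
    let _ : NormedAlgebra ℝ (Matrix S S ℝ) := Matrix.linftyOpNormedAlgebra
    exact NormedSpace.exp_zero
  rw [this, Matrix.one_mulVec]

/-- Conservation of mass: if the rows of `Q` sum to zero then `exp (t Q) 1 = 1`. -/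
theorem exp_mulVec_one (Q : Matrix S S ℝ) (hrow : ∀ i, ∑ j, Q i j = 0) (t : ℝ) (i : S) :
    (NormedSpace.exp (t • Q) *ᵥ (fun _ => (1 : ℝ))) i = 1 := by
  have hQ : Q *ᵥ (fun _ => (1 : ℝ)) = 0 := by
    ext a
    simpa [Matrix.mulVec, dotProduct] using hrow a
  have hder : ∀ s : ℝ, HasDerivAt (fun u : ℝ => (NormedSpace.exp (u • Q) *ᵥ (fun _ => (1 : ℝ))) i)
      0 s := by
    intro s
    have := hasDerivAt_semigroup Q (fun _ => (1 : ℝ)) i s
    rw [hQ, Matrix.mulVec_zero] at this
    exact this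
  have hconst := is_const_of_deriv_eq_zero (fun s => (hder s).differentiableAt)
    (fun s => (hder s).deriv) t 0
  beta_reduce at hconst
  rw [hconst, exp_zero_mulVec]

/-- Gronwall-type bound: if `Q g ≤ c` everywhere, then `exp (t Q) g ≤ g + c t`. -/
theorem exp_mulVec_le (Q : Matrix S S ℝ) (hoff : ∀ i j, i ≠ j → 0 ≤ Q i j)
    (hrow : ∀ i, ∑ j, Q i j = 0) (g : S → ℝ) (c : ℝ) (hg : ∀ i, (Q *ᵥ g) i ≤ c)
    (t : ℝ) (ht : 0 ≤ t) (i : S) :
    (NormedSpace.exp (t • Q) *ᵥ g) i ≤ g i + c * t := by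
  set φ : ℝ → ℝ := fun u => (NormedSpace.exp (u • Q) *ᵥ g) i - c * u with hφ
  have hder : ∀ s : ℝ, HasDerivAt φ ((NormedSpace.exp (s • Q) *ᵥ (Q *ᵥ g)) i - c) s := by
    intro s
    have h1 := hasDerivAt_semigroup Q g i s
    have h2 : HasDerivAt (fun u : ℝ => c * u) c s := by
      simpa using (hasDerivAt_id s).const_mul c
    exact h1.sub h2
  have hneg : ∀ s : ℝ, 0 ≤ s → (NormedSpace.exp (s • Q) *ᵥ (Q *ᵥ g)) i - c ≤ 0 := by
    intro s hs
    have hpos : ∀ j, 0 ≤ NormedSpace.exp (s • Q) i j := by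
      intro j
      refine exp_entry_nonneg _ (fun a b hab => ?_) i j
      simp only [Matrix.smul_apply, smul_eq_mul]
      exact mul_nonneg hs (hoff a b hab)
    have h1 : (NormedSpace.exp (s • Q) *ᵥ (Q *ᵥ g)) i
        ≤ (NormedSpace.exp (s • Q) *ᵥ (fun _ => c)) i := by
      simp only [Matrix.mulVec, dotProduct]
      exact Finset.sum_le_sum fun j _ => mul_le_mul_of_nonneg_left (hg j) (hpos j)
    have h2 : (NormedSpace.exp (s • Q) *ᵥ (fun _ => c)) i = c := by
      have h3 := exp_mulVec_one Q hrow s i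
      simp only [Matrix.mulVec, dotProduct] at h3 ⊢
      rw [← Finset.sum_mul]
      simp only [mul_one] at h3
      rw [h3, one_mul]
    linarith
  have hanti : AntitoneOn φ (Set.Ici 0) := by
    refine antitoneOn_of_deriv_nonpos (convex_Ici 0)
      (fun s _ => (hder s).continuousAt.continuousWithinAt)
      (fun s _ => (hder s).differentiableAt.differentiableWithinAt) ?_
    intro s hs
    rw [interior_Ici] at hs
    rw [(hder s).deriv]
    exact hneg s (le_of_lt hs)
  have h := hanti (Set.mem_Ici.2 le_rfl) (Set.mem_Ici.2 ht) ht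
  simp only [hφ] at h
  rw [exp_zero_mulVec] at h
  linarith

end Pool.Agent.H96
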