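import Mathlib
import Pool.Agent.H96.FiniteMarkov
import Pool.Agent.H96.ExclusionDefs

/-!
# Mixing time of the exclusion process in a ballistic random environment: proofs
-/

set_option autoImplicit false

open MeasureTheory Filter Topology
open scoped ENNReal NNReal Matrix

namespace Pool.Agent.H96.Exclusion

/-! ### The generator -/

section generator

variable {N k : ℕ} (ω : Fin N → ℝ)

theorem siteRate_nonneg (h0 : ∀ x, 0 ≤ ω x) (h1 : ∀ x, ω x ≤ 1) (x y : Fin N) :
    0 ≤ siteRate ω x y := by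
  unfold siteRate
  split_ifs
  · exact h0 x
  · linarith [h1 x]
  · exact le_rfl

theorem jumpRate_nonneg (h0 : ∀ x, 0 ≤ ω x) (h1 : ∀ x, ω x ≤ 1) (η ζ : Config N k) :
    0 ≤ jumpRate ω η ζ := by
  unfold jumpRate
  refine Finset.sum_nonneg fun x _ => Finset.sum_nonneg fun y _ => ?_
  split_ifs
  · exact siteRate_nonneg ω h0 h1 x y
  · exact le_rfl

theorem generator_off (h0 : ∀ x, 0 ≤ ω x) (h1 : ∀ x, ω x ≤ 1) (η ζ : Config N k) (h : η ≠ ζ) :
    0 ≤ generator ω η ζ := by
  simp only [generator, Matrix.of_apply, if_neg h, sub_zero]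
  exact jumpRate_nonneg ω h0 h1 η ζ

theorem generator_row (η : Config N k) : ∑ ζ, generator ω η ζ = 0 := by
  simp only [generator, Matrix.of_apply, Finset.sum_sub_distrib, Finset.sum_ite_eq,
    Finset.mem_univ, if_true, sub_self]

theorem generator_mulVec (g : Config N k → ℝ) (η : Config N k) :
    (generator ω *ᵥ g) η = ∑ ζ, jumpRate ω η ζ * (g ζ - g η) := by
  simp only [Matrix.mulVec, dotProduct, generator, Matrix.of_apply, sub_mul, mul_sub,
    Finset.sum_sub_distrib, ite_mul, zero_mul, Finset.sum_ite_eq, Finset.mem_univ, if_true,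
    Finset.sum_mul]

/-- If `g` can only increase through the jump `a → b`, and then by at most `1`, then the
generator applied to `g` is at most the rate of that jump. -/
theorem generator_mulVec_le (h0 : ∀ x, 0 ≤ ω x) (h1 : ∀ x, ω x ≤ 1) (g : Config N k → ℝ)
    (a b : Fin N)
    (hg : ∀ (η ζ : Config N k) (x y : Fin N), x ∈ η.1 → y ∉ η.1 → ζ.1 = insert y (η.1.erase x) →
      ((y : ℕ) = (x : ℕ) + 1 ∨ (x : ℕ) = (y : ℕ) + 1) →
      g ζ - g η ≤ if x = a ∧ y = b then 1 else 0) (η : Config N k) :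
    (generator ω *ᵥ g) η ≤ siteRate ω a b := by
  classical
  rw [generator_mulVec]
  have hterm : ∀ ζ : Config N k, jumpRate ω η ζ * (g ζ - g η) ≤
      if ζ.1 = insert b (η.1.erase a) then siteRate ω a b else 0 := by
    intro ζ
    unfold jumpRate
    rw [Finset.sum_mul]
    simp_rw [Finset.sum_mul]
    have hx : ∀ x y : Fin N,
        (if x ∈ η.1 ∧ y ∉ η.1 ∧ ζ.1 = insert y (η.1.erase x) then siteRate ω x y else 0) *
          (g ζ - g η) ≤
        if x = a then (if y = b then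
          (if ζ.1 = insert b (η.1.erase a) then siteRate ω a b else 0) else 0) else 0 := by
      intro x y
      by_cases hcond : x ∈ η.1 ∧ y ∉ η.1 ∧ ζ.1 = insert y (η.1.erase x)
      · rw [if_pos hcond]
        by_cases hadj : (y : ℕ) = (x : ℕ) + 1 ∨ (x : ℕ) = (y : ℕ) + 1
        · have h := hg η ζ x y hcond.1 hcond.2.1 hcond.2.2 hadj
          have hr := siteRate_nonneg ω h0 h1 x y
          by_cases hxa : x = a
          · by_cases hyb : y = b
            · subst hxa; subst hyb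
              simp only [and_self, if_true] at h
              simp only [if_true, hcond.2.2]
              nlinarith
            · simp only [hxa, hyb, and_false, if_false] at h
              simp only [hxa, hyb, if_true, if_false]
              have := mul_nonneg hr (neg_nonneg.2 h)
              rw [hxa] at this
              linarith
          · simp only [hxa, false_and, if_false] at h
            simp only [hxa, if_false]
            have := mul_nonneg hr (neg_nonneg.2 h)
            linarith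
        · have hz : siteRate ω x y = 0 := by
            unfold siteRate
            rw [if_neg (fun h => hadj (Or.inl h)), if_neg (fun h => hadj (Or.inr h))]
          rw [hz, zero_mul]
          split_ifs
          · exact siteRate_nonneg ω h0 h1 a b
          all_goals exact le_rfl
      · rw [if_neg hcond, zero_mul]
        split_ifs
        · exact siteRate_nonneg ω h0 h1 a b
        all_goals exact le_rfl
    calc ∑ x : Fin N, ∑ y : Fin N,
        (if x ∈ η.1 ∧ y ∉ η.1 ∧ ζ.1 = insert y (η.1.erase x) then siteRate ω x y else 0) *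
          (g ζ - g η)
        ≤ ∑ x : Fin N, ∑ y : Fin N, (if x = a then (if y = b then
          (if ζ.1 = insert b (η.1.erase a) then siteRate ω a b else 0) else 0) else 0) :=
          Finset.sum_le_sum fun x _ => Finset.sum_le_sum fun y _ => hx x y
      _ = if ζ.1 = insert b (η.1.erase a) then siteRate ω a b else 0 := by
          simp
  refine (Finset.sum_le_sum fun ζ _ => hterm ζ).trans ?_
  have hr := siteRate_nonneg ω h0 h1 a b
  rw [← Finset.sum_filter, Finset.sum_const, nsmul_eq_mul]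
  have hcard : (Finset.univ.filter fun ζ : Config N k =>
      ζ.1 = insert b (η.1.erase a)).card ≤ 1 := by
    rw [Finset.card_le_one]
    intro p hp q hq
    simp only [Finset.mem_filter, Finset.mem_univ, true_and] at hp hq
    exact Subtype.ext (hp.trans hq.symm)
  have : ((Finset.univ.filter fun ζ : Config N k =>
      ζ.1 = insert b (η.1.erase a)).card : ℝ) ≤ 1 := by exact_mod_cast hcard
  nlinarith

end generator

/-! ### Counting particles in a set of sites -/

section count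

variable {N k : ℕ}

/-- Number of particles at sites satisfying `p`. -/
def cnt (p : Fin N → Prop) [DecidablePred p] (η : Config N k) : ℕ := (η.1.filter p).card

theorem cnt_move (p : Fin N → Prop) [DecidablePred p] (η ζ : Config N k) (x y : Fin N)
    (hx : x ∈ η.1) (hy : y ∉ η.1) (h : ζ.1 = insert y (η.1.erase x)) :
    cnt p ζ + (if p x then 1 else 0) = cnt p η + (if p y then 1 else 0) := by
  unfold cnt
  rw [h, Finset.filter_insert, Finset.filter_erase]
  have hy' : y ∉ (η.1.filter p).erase x := by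
    intro hmem
    exact hy (Finset.mem_filter.1 (Finset.mem_of_mem_erase hmem)).1
  by_cases hpx : p x
  · have hxm : x ∈ η.1.filter p := Finset.mem_filter.2 ⟨hx, hpx⟩
    have hc : ((η.1.filter p).erase x).card + 1 = (η.1.filter p).card :=
      Finset.card_erase_add_one hxm
    by_cases hpy : p y
    · simp only [if_pos hpx, if_pos hpy]
      rw [Finset.card_insert_of_notMem hy']
      omega
    · simp only [if_pos hpx, if_neg hpy]
      omega
  · have hxm : x ∉ η.1.filter p := fun hmem => hpx (Finset.mem_filter.1 hmem).2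
    rw [Finset.erase_eq_of_notMem hxm] at hy' ⊢
    by_cases hpy : p y
    · simp only [if_neg hpx, if_pos hpy]
      rw [Finset.card_insert_of_notMem hy']
    · simp only [if_neg hpx, if_neg hpy]

end count

/-! ### Comparison of two initial configurations -/

section compare

variable {N k : ℕ} (ω : Fin N → ℝ)

theorem law_nonneg (h0 : ∀ x, 0 ≤ ω x) (h1 : ∀ x, ω x ≤ 1) (t : ℝ) (ht : 0 ≤ t)
    (η ζ : Config N k) : 0 ≤ law ω t η ζ := by
  unfold law
  refine H96.exp_entry_nonneg _ (fun a b hab => ?_) η ζ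
  simp only [Matrix.smul_apply, smul_eq_mul]
  exact mul_nonneg ht (generator_off ω h0 h1 a b hab)

theorem law_sum (t : ℝ) (η : Config N k) : ∑ ζ, law ω t η ζ = 1 := by
  have h := H96.exp_mulVec_one (generator (k := k) ω) (generator_row ω) t η
  simpa [Matrix.mulVec, dotProduct, law] using h

theorem law_mean_le (h0 : ∀ x, 0 ≤ ω x) (h1 : ∀ x, ω x ≤ 1) (g : Config N k → ℝ) (c : ℝ)
    (hg : ∀ η, (generator ω *ᵥ g) η ≤ c) (t : ℝ) (ht : 0 ≤ t) (η : Config N k) :
    ∑ ζ, law ω t η ζ * g ζ ≤ g η + c * t := by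
  have h := H96.exp_mulVec_le (generator (k := k) ω) (generator_off ω h0 h1) (generator_row ω)
    g c hg t ht η
  simpa [Matrix.mulVec, dotProduct, law] using h

/-- Total variation distance controls differences of probabilities of events. -/
theorem sum_sub_le_tv (p q : Config N k → ℝ) (hp : ∑ η, p η = 1) (hq : ∑ η, q η = 1)
    (A : Finset (Config N k)) : ∑ η ∈ A, p η - ∑ η ∈ A, q η ≤ tv p q := by
  classical
  have h1 : ∑ η ∈ A, (p η - q η) ≤ ∑ η ∈ A, |p η - q η| :=
    Finset.sum_le_sum fun η _ => le_abs_self _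
  have h2 : ∑ η ∈ Aᶜ, (q η - p η) ≤ ∑ η ∈ Aᶜ, |p η - q η| :=
    Finset.sum_le_sum fun η _ => by rw [abs_sub_comm]; exact le_abs_self _
  have h3 : ∑ η ∈ A, |p η - q η| + ∑ η ∈ Aᶜ, |p η - q η| = ∑ η, |p η - q η| :=
    Finset.sum_add_sum_compl A _
  have h4 : ∑ η ∈ A, p η + ∑ η ∈ Aᶜ, p η = 1 := by rw [Finset.sum_add_sum_compl A p, hp]
  have h5 : ∑ η ∈ A, q η + ∑ η ∈ Aᶜ, q η = 1 := by rw [Finset.sum_add_sum_compl A q, hq]
  rw [Finset.sum_sub_distrib] at h1 h2
  unfold tv
  linarith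

/-- The key deterministic estimate. Suppose `x < y`, the starting configuration `ηL` has at most
`c0` particles strictly to the right of `x`, and `ηR` has at least `c1 > c0` particles at sites
`≥ y`. As long as `t * ((1 - ω y) + ω x / (c1 - c0)) < 1 / 2`, the process is not mixed. -/
theorem not_mixed (h0 : ∀ x, 0 ≤ ω x) (h1 : ∀ x, ω x ≤ 1) (x y : Fin N) (hxy : x < y)
    (ηL ηR : Config N k) (c0 c1 : ℕ) (hc : c0 < c1)
    (hL : cnt (fun i => x < i) ηL ≤ c0) (hR : c1 ≤ cnt (fun i => y ≤ i) ηR)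
    (t : ℝ) (ht : 0 ≤ t) (hsmall : t * ((1 - ω y) + ω x / ((c1 : ℝ) - c0)) < 1 / 2)
    (π : Config N k → ℝ) (hπ : ∑ η, π η = 1) :
    ¬ ∀ η, tv (law ω t η) π ≤ 1 / 4 := by
  classical
  intro hall
  have hpos : (0 : ℝ) < (c1 : ℝ) - c0 := by
    have : (c0 : ℝ) < c1 := by exact_mod_cast hc
    linarith
  -- neighbours of the trap and of the door
  have hxN : (x : ℕ) + 1 < N := lt_of_le_of_lt (Nat.succ_le_of_lt hxy) y.2
  have hy0 : 0 < (y : ℕ) := lt_of_le_of_lt (Nat.zero_le _) hxy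
  set x' : Fin N := ⟨(x : ℕ) + 1, hxN⟩ with hx'
  set y' : Fin N := ⟨(y : ℕ) - 1, lt_of_le_of_lt (Nat.sub_le _ _) y.2⟩ with hy'
  have hrx : siteRate ω x x' = ω x := by simp [siteRate, hx']
  have hry : siteRate ω y y' = 1 - ω y := by
    unfold siteRate
    rw [if_neg, if_pos]
    · simp only [hy']; omega
    · simp only [hy']; omega
  -- left start
  set gL : Config N k → ℝ := fun η => ((cnt (fun i => x < i) η - c0 : ℕ) : ℝ) with hgL
  have hQL : ∀ η, (generator ω *ᵥ gL) η ≤ ω x := by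
    intro η
    rw [← hrx]
    refine generator_mulVec_le ω h0 h1 gL x x' ?_ η
    intro η ζ a b ha hb hab hadj
    have hm := cnt_move (fun i => x < i) η ζ a b ha hb hab
    simp only [hgL]
    by_cases hcase : a = x ∧ b = x'
    · rw [if_pos hcase]
      have : cnt (fun i => x < i) ζ - c0 ≤ (cnt (fun i => x < i) η - c0) + 1 := by
        have : cnt (fun i => x < i) ζ ≤ cnt (fun i => x < i) η + 1 := by
          split_ifs at hm <;> omega
        omega
      have h' : ((cnt (fun i => x < i) ζ - c0 : ℕ) : ℝ) ≤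
          ((cnt (fun i => x < i) η - c0 : ℕ) : ℝ) + 1 := by exact_mod_cast this
      linarith
    · rw [if_neg hcase]
      have himp : x < b → x < a := by
        intro hb'
        by_contra hna
        apply hcase
        have h1 : (x : ℕ) < b := hb'
        have h2 : (a : ℕ) ≤ x := not_lt.1 hna
        constructor
        · apply Fin.ext; omega
        · apply Fin.ext; simp only [hx']; omega
      have : cnt (fun i => x < i) ζ ≤ cnt (fun i => x < i) η := by
        split_ifs at hm with h1 h2 h3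
        · omega
        · omega
        · exact absurd (himp h3) h1
        · omega
      have h' : ((cnt (fun i => x < i) ζ - c0 : ℕ) : ℝ) ≤
          ((cnt (fun i => x < i) η - c0 : ℕ) : ℝ) := by exact_mod_cast Nat.sub_le_sub_right this c0
      linarith
  -- right start
  set gR : Config N k → ℝ := fun η => ((c1 - cnt (fun i => y ≤ i) η : ℕ) : ℝ) with hgR
  have hQR : ∀ η, (generator ω *ᵥ gR) η ≤ 1 - ω y := by
    intro η
    rw [← hry]
    refine generator_mulVec_le ω h0 h1 gR y y' ?_ η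
    intro η ζ a b ha hb hab hadj
    have hm := cnt_move (fun i => y ≤ i) η ζ a b ha hb hab
    simp only [hgR]
    by_cases hcase : a = y ∧ b = y'
    · rw [if_pos hcase]
      have : c1 - cnt (fun i => y ≤ i) ζ ≤ (c1 - cnt (fun i => y ≤ i) η) + 1 := by
        have : cnt (fun i => y ≤ i) η ≤ cnt (fun i => y ≤ i) ζ + 1 := by
          split_ifs at hm <;> omega
        omega
      have h' : ((c1 - cnt (fun i => y ≤ i) ζ : ℕ) : ℝ) ≤
          ((c1 - cnt (fun i => y ≤ i) η : ℕ) : ℝ) + 1 := by exact_mod_cast this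
      linarith
    · rw [if_neg hcase]
      have himp : y ≤ a → y ≤ b := by
        intro ha'
        by_contra hnb
        apply hcase
        have h1 : (y : ℕ) ≤ a := ha'
        have h2 : (b : ℕ) < y := not_le.1 hnb
        constructor
        · apply Fin.ext; omega
        · apply Fin.ext; simp only [hy']; omega
      have : cnt (fun i => y ≤ i) η ≤ cnt (fun i => y ≤ i) ζ := by
        split_ifs at hm with h1 h2 h3
        · omega
        · exact absurd (himp h1) h2
        · omega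
        · omega
      have h' : ((c1 - cnt (fun i => y ≤ i) ζ : ℕ) : ℝ) ≤
          ((c1 - cnt (fun i => y ≤ i) η : ℕ) : ℝ) := by exact_mod_cast Nat.sub_le_sub_left this c1
      linarith
  set A : Finset (Config N k) := Finset.univ.filter fun η => c1 ≤ cnt (fun i => y ≤ i) η with hA
  -- from the left, the event `A` is unlikely
  have hPL : (∑ ζ ∈ A, law ω t ηL ζ) * ((c1 : ℝ) - c0) ≤ ω x * t := by
    have hmean := law_mean_le ω h0 h1 gL (ω x) hQL t ht ηL
    have hz : gL ηL = 0 := by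
      simp only [hgL]
      have : cnt (fun i => x < i) ηL - c0 = 0 := Nat.sub_eq_zero_of_le hL
      rw [this]; simp
    have hsub : ∑ ζ ∈ A, law ω t ηL ζ * ((c1 : ℝ) - c0) ≤ ∑ ζ, law ω t ηL ζ * gL ζ := by
      refine (Finset.sum_le_sum fun ζ hζ => ?_).trans
        (Finset.sum_le_sum_of_subset_of_nonneg (Finset.subset_univ A) fun ζ _ _ => ?_)
      · refine mul_le_mul_of_nonneg_left ?_ (law_nonneg ω h0 h1 t ht ηL ζ)
        simp only [hA, Finset.mem_filter, Finset.mem_univ, true_and] at hζ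
        have hmono : cnt (fun i => y ≤ i) ζ ≤ cnt (fun i => x < i) ζ := by
          unfold cnt
          refine Finset.card_le_card fun i hi => ?_
          rw [Finset.mem_filter] at hi ⊢
          exact ⟨hi.1, lt_of_lt_of_le hxy hi.2⟩
        have : c1 - c0 ≤ cnt (fun i => x < i) ζ - c0 := Nat.sub_le_sub_right (hζ.trans hmono) c0
        have h' : ((c1 - c0 : ℕ) : ℝ) ≤ gL ζ := by simp only [hgL]; exact_mod_cast this
        rwa [Nat.cast_sub hc.le] at h'
      · exact mul_nonneg (law_nonneg ω h0 h1 t ht ηL ζ) (by simp only [hgL]; positivity)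
    rw [Finset.sum_mul]
    linarith
  -- from the right, it is likely
  have hPR : 1 - (1 - ω y) * t ≤ ∑ ζ ∈ A, law ω t ηR ζ := by
    have hmean := law_mean_le ω h0 h1 gR (1 - ω y) hQR t ht ηR
    have hz : gR ηR = 0 := by
      simp only [hgR]
      have : c1 - cnt (fun i => y ≤ i) ηR = 0 := Nat.sub_eq_zero_of_le hR
      rw [this]; simp
    have hsub : ∑ ζ ∈ Aᶜ, law ω t ηR ζ ≤ ∑ ζ, law ω t ηR ζ * gR ζ := by
      refine (Finset.sum_le_sum fun ζ hζ => ?_).trans
        (Finset.sum_le_sum_of_subset_of_nonneg (Finset.subset_univ Aᶜ) fun ζ _ _ => ?_)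
      · have hnn := law_nonneg ω h0 h1 t ht ηR ζ
        simp only [hA, Finset.mem_compl, Finset.mem_filter, Finset.mem_univ, true_and,
          not_le] at hζ
        have h1' : 1 ≤ c1 - cnt (fun i => y ≤ i) ζ := Nat.le_sub_of_add_le (by omega)
        have h' : (1 : ℝ) ≤ gR ζ := by simp only [hgR]; exact_mod_cast h1'
        nlinarith
      · exact mul_nonneg (law_nonneg ω h0 h1 t ht ηR ζ) (by simp only [hgR]; positivity)
    have htot : ∑ ζ ∈ A, law ω t ηR ζ + ∑ ζ ∈ Aᶜ, law ω t ηR ζ = 1 := by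
      rw [Finset.sum_add_sum_compl A, law_sum]
    linarith
  have hA1 := sum_sub_le_tv (law ω t ηR) π (law_sum ω t ηR) hπ A
  have hA2 := sum_sub_le_tv π (law ω t ηL) hπ (law_sum ω t ηL) A
  have hsymm : tv π (law ω t ηL) = tv (law ω t ηL) π := by
    unfold tv
    congr 1
    exact Finset.sum_congr rfl fun η _ => abs_sub_comm _ _
  have h3 := hall ηR
  have h4 := hall ηL
  have hPL' : ∑ ζ ∈ A, law ω t ηL ζ ≤ ω x * t / ((c1 : ℝ) - c0) := by
    rw [le_div_iff₀ hpos]; exact hPL
  have hfin : ω x * t / ((c1 : ℝ) - c0) = t * (ω x / ((c1 : ℝ) - c0)) := by ring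
  rw [hfin] at hPL'
  nlinarith

end compare

/-! ### Packed configurations and a lower bound for the mixing time -/

section packed

variable {N k : ℕ}

theorem card_filter_interval (a b : ℕ) :
    (Finset.univ.filter fun i : Fin N => a ≤ (i : ℕ) ∧ (i : ℕ) < b).card = min b N - a := by
  have h : (Finset.univ.filter fun i : Fin N => a ≤ (i : ℕ) ∧ (i : ℕ) < b).map Fin.valEmbedding
      = Finset.Ico a (min b N) := by
    ext j
    simp only [Finset.mem_map, Finset.mem_filter, Finset.mem_univ, true_and,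
      Fin.valEmbedding_apply, Finset.mem_Ico, lt_min_iff]
    constructor
    · rintro ⟨i, hi, rfl⟩
      exact ⟨hi.1, hi.2, i.2⟩
    · rintro ⟨h1, h2, h3⟩
      exact ⟨⟨j, h3⟩, ⟨h1, h2⟩, rfl⟩
  rw [← Finset.card_map Fin.valEmbedding, h, Nat.card_Ico]

/-- All particles packed to the left. -/
def leftPacked (hk : k ≤ N) : Config N k :=
  ⟨Finset.univ.filter fun i : Fin N => 0 ≤ (i : ℕ) ∧ (i : ℕ) < k, by
    rw [card_filter_interval]; omega⟩

/-- All particles packed to the right. -/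
def rightPacked (hk : k ≤ N) : Config N k :=
  ⟨Finset.univ.filter fun i : Fin N => N - k ≤ (i : ℕ) ∧ (i : ℕ) < N, by
    rw [card_filter_interval]; omega⟩

theorem cnt_leftPacked (hk : k ≤ N) (x : Fin N) :
    cnt (fun i => x < i) (leftPacked hk) ≤ k - (x + 1) := by
  unfold cnt leftPacked
  simp only [Finset.filter_filter]
  have h := card_filter_interval (N := N) ((x : ℕ) + 1) k
  have hle : (Finset.univ.filter fun i : Fin N => (0 ≤ (i : ℕ) ∧ (i : ℕ) < k) ∧ x < i).card ≤
      (Finset.univ.filter fun i : Fin N => (x : ℕ) + 1 ≤ (i : ℕ) ∧ (i : ℕ) < k).card := by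
    refine Finset.card_le_card fun i hi => ?_
    simp only [Finset.mem_filter, Finset.mem_univ, true_and] at hi ⊢
    have : (x : ℕ) < i := hi.2
    omega
  omega

theorem cnt_rightPacked (hk : k ≤ N) (y : Fin N) :
    min (N - y) k ≤ cnt (fun i => y ≤ i) (rightPacked hk) := by
  unfold cnt rightPacked
  simp only [Finset.filter_filter]
  have h := card_filter_interval (N := N) (max (y : ℕ) (N - k)) N
  have hle : (Finset.univ.filter fun i : Fin N => max (y : ℕ) (N - k) ≤ (i : ℕ) ∧ (i : ℕ) < N).card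
      ≤ (Finset.univ.filter fun i : Fin N => (N - k ≤ (i : ℕ) ∧ (i : ℕ) < N) ∧ y ≤ i).card := by
    refine Finset.card_le_card fun i hi => ?_
    simp only [Finset.mem_filter, Finset.mem_univ, true_and] at hi ⊢
    have h1 : (y : ℕ) ≤ i := by omega
    exact ⟨by omega, h1⟩
  have hy := y.2
  omega

/-- Deterministic lower bound for the mixing time: a slow site `x` and an almost perfect door
`y > x`, both close to the middle of the segment. -/
theorem le_mixingTime (ω : Fin N → ℝ) (h0 : ∀ x, 0 ≤ ω x) (h1 : ∀ x, ω x ≤ 1) (m : ℕ)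
    (hm : 0 < m) (hmk : m ≤ k) (hmN : m ≤ N - k) (hk : k ≤ N) (x y : Fin N)
    (hx1 : N / 2 - m / 4 ≤ (x : ℕ)) (hx2 : (x : ℕ) < N / 2)
    (hy1 : N / 2 ≤ (y : ℕ)) (hy2 : (y : ℕ) ≤ N / 2 + m / 4) (T : ℝ≥0)
    (hT : (T : ℝ) * ((1 - ω y) + ω x / ((m : ℝ) / 2)) < 1 / 2) :
    (T : ℝ≥0∞) ≤ mixingTime k ω := by
  unfold mixingTime
  refine le_iInf₂ fun t ht => ?_
  by_contra hlt
  rw [not_le] at hlt
  have htT : t < T := by exact_mod_cast hlt
  obtain ⟨π, hπ, hall⟩ := ht
  have hxy : x < y := by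
    have : (x : ℕ) < y := lt_of_lt_of_le hx2 hy1
    exact this
  have hyN := y.2
  have hc : m ≤ 2 * (min (N - (y : ℕ)) k - (k - ((x : ℕ) + 1))) := by omega
  have hc' : k - ((x : ℕ) + 1) < min (N - (y : ℕ)) k := by omega
  refine not_mixed ω h0 h1 x y hxy (leftPacked hk) (rightPacked hk) (k - ((x : ℕ) + 1))
    (min (N - (y : ℕ)) k) hc' (cnt_leftPacked hk x) (cnt_rightPacked hk y) t t.2 ?_ π hπ.2.1 hall
  have hmpos : (0 : ℝ) < (m : ℝ) / 2 := by
    have : (0 : ℝ) < m := by exact_mod_cast hm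
    linarith
  have hdiff : (m : ℝ) / 2 ≤ ((min (N - (y : ℕ)) k : ℕ) : ℝ) - ((k - ((x : ℕ) + 1) : ℕ) : ℝ) := by
    rw [← Nat.cast_sub hc'.le]
    have : (m : ℝ) ≤ ((2 * (min (N - (y : ℕ)) k - (k - ((x : ℕ) + 1))) : ℕ) : ℝ) := by
      exact_mod_cast hc
    push_cast at this ⊢
    linarith
  have hfrac : ω x / (((min (N - (y : ℕ)) k : ℕ) : ℝ) - ((k - ((x : ℕ) + 1) : ℕ) : ℝ)) ≤
      ω x / ((m : ℝ) / 2) := div_le_div_of_nonneg_left (h0 x) hmpos hdiff
  have hb0 : 0 ≤ (1 - ω y) + ω x / ((m : ℝ) / 2) :=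
    add_nonneg (by linarith [h1 y]) (div_nonneg (h0 x) hmpos.le)
  calc (t : ℝ) * ((1 - ω y) +
        ω x / (((min (N - (y : ℕ)) k : ℕ) : ℝ) - ((k - ((x : ℕ) + 1) : ℕ) : ℝ)))
      ≤ (t : ℝ) * ((1 - ω y) + ω x / ((m : ℝ) / 2)) :=
        mul_le_mul_of_nonneg_left (by linarith) t.2
    _ ≤ (T : ℝ) * ((1 - ω y) + ω x / ((m : ℝ) / 2)) :=
        mul_le_mul_of_nonneg_right (by exact_mod_cast htT.le) hb0
    _ < 1 / 2 := hT

end packed

/-! ### The environment law -/

section envLaw

/-- The levels `1/2, 1/4, 1/8, …`. -/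
noncomputable def lvl (j : ℕ) : ℝ := (1 / 2) ^ (j + 1)

/-- Weights summing to one. -/
noncomputable def wt (j : ℕ) : ℝ := 1 / (((j : ℝ) + 1) * ((j : ℝ) + 2))

theorem lvl_pos (j : ℕ) : 0 < lvl j := by unfold lvl; positivity

theorem lvl_le_half (j : ℕ) : lvl j ≤ 1 / 2 := by
  unfold lvl
  rw [pow_succ]
  have : ((1 : ℝ) / 2) ^ j ≤ 1 := pow_le_one₀ (by norm_num) (by norm_num)
  linarith

theorem wt_pos (j : ℕ) : 0 < wt j := by unfold wt; positivity

theorem hasSum_wt : HasSum wt 1 := by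
  have hpart : ∀ n : ℕ, ∑ j ∈ Finset.range n, wt j = 1 - 1 / ((n : ℝ) + 1) := by
    intro n
    induction n with
    | zero => simp
    | succ n ih =>
      rw [Finset.sum_range_succ, ih]
      unfold wt
      push_cast
      field_simp
      ring
  rw [hasSum_iff_tendsto_nat_of_nonneg (fun j => (wt_pos j).le)]
  simp_rw [hpart]
  have : Tendsto (fun n : ℕ => 1 / ((n : ℝ) + 1)) atTop (𝓝 0) :=
    tendsto_one_div_add_atTop_nhds_zero_nat
  simpa using this.const_sub 1

/-- The law of a single `ω(x)`: with probability `wt j` the level `j` is chosen; then `ω = lvl j`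
with probability `lvl j / 4` and `ω = 1 - lvl j` otherwise. -/
noncomputable def envLaw : Measure ℝ :=
  Measure.sum fun j : ℕ =>
    ENNReal.ofReal (wt j * (lvl j / 4)) • Measure.dirac (lvl j) +
      ENNReal.ofReal (wt j * (1 - lvl j / 4)) • Measure.dirac (1 - lvl j)

theorem w1_nonneg (j : ℕ) : 0 ≤ wt j * (lvl j / 4) :=
  mul_nonneg (wt_pos j).le (by linarith [lvl_pos j])

theorem w2_nonneg (j : ℕ) : 0 ≤ wt j * (1 - lvl j / 4) :=
  mul_nonneg (wt_pos j).le (by linarith [lvl_le_half j])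

instance : IsProbabilityMeasure envLaw := by
  constructor
  unfold envLaw
  rw [Measure.sum_apply _ MeasurableSet.univ]
  have : ∀ j : ℕ, (ENNReal.ofReal (wt j * (lvl j / 4)) • Measure.dirac (lvl j) +
      ENNReal.ofReal (wt j * (1 - lvl j / 4)) • Measure.dirac (1 - lvl j)) (Set.univ : Set ℝ)
      = ENNReal.ofReal (wt j) := by
    intro j
    rw [Measure.add_apply, Measure.smul_apply, Measure.smul_apply, measure_univ, measure_univ,
      smul_eq_mul, smul_eq_mul, mul_one, mul_one,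
      ← ENNReal.ofReal_add (w1_nonneg j) (w2_nonneg j)]
    congr 1
    ring
  simp_rw [this]
  rw [← ENNReal.ofReal_tsum_of_nonneg (fun j => (wt_pos j).le) hasSum_wt.summable,
    hasSum_wt.tsum_eq, ENNReal.ofReal_one]

theorem envLaw_compl : envLaw (Set.Ioo (0 : ℝ) 1)ᶜ = 0 := by
  unfold envLaw
  rw [Measure.sum_apply _ measurableSet_Ioo.compl, ENNReal.tsum_eq_zero]
  intro j
  have h1 : lvl j ∉ (Set.Ioo (0 : ℝ) 1)ᶜ := by
    simp only [Set.mem_compl_iff, not_not, Set.mem_Ioo]
    exact ⟨lvl_pos j, by linarith [lvl_le_half j]⟩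
  have h2 : 1 - lvl j ∉ (Set.Ioo (0 : ℝ) 1)ᶜ := by
    simp only [Set.mem_compl_iff, not_not, Set.mem_Ioo]
    exact ⟨by linarith [lvl_le_half j], by linarith [lvl_pos j]⟩
  simp only [Measure.add_apply, Measure.smul_apply, Measure.dirac_apply' _
    measurableSet_Ioo.compl, Set.indicator_of_notMem h1, Set.indicator_of_notMem h2, smul_zero,
    add_zero]

theorem envLaw_slow (j : ℕ) : ENNReal.ofReal (wt j * (lvl j / 4)) ≤ envLaw {lvl j} := by
  unfold envLaw
  rw [Measure.sum_apply _ (measurableSet_singleton _)]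
  refine le_trans ?_ (ENNReal.le_tsum j)
  rw [Measure.add_apply, Measure.smul_apply, Measure.dirac_apply' _ (measurableSet_singleton _)]
  simp

theorem envLaw_door (j : ℕ) : ENNReal.ofReal (wt j * (1 - lvl j / 4)) ≤ envLaw {1 - lvl j} := by
  unfold envLaw
  rw [Measure.sum_apply _ (measurableSet_singleton _)]
  refine le_trans ?_ (ENNReal.le_tsum j)
  rw [Measure.add_apply, Measure.smul_apply, Measure.smul_apply,
    Measure.dirac_apply' (1 - lvl j) (measurableSet_singleton _)]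
  simp

theorem envLaw_ballistic : ∫⁻ w, ENNReal.ofReal ((1 - w) / w) ∂envLaw < 1 := by
  unfold envLaw
  rw [lintegral_sum_measure]
  have hterm : ∀ j : ℕ, ∫⁻ w, ENNReal.ofReal ((1 - w) / w)
      ∂(ENNReal.ofReal (wt j * (lvl j / 4)) • Measure.dirac (lvl j) +
      ENNReal.ofReal (wt j * (1 - lvl j / 4)) • Measure.dirac (1 - lvl j))
      ≤ ENNReal.ofReal (wt j / 4 + 2 * (wt j * lvl j)) := by
    intro j
    have hp := lvl_pos j
    have hh := lvl_le_half j
    have hw := wt_pos j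
    rw [lintegral_add_measure, lintegral_smul_measure, lintegral_smul_measure, lintegral_dirac,
      lintegral_dirac, smul_eq_mul, smul_eq_mul, ← ENNReal.ofReal_mul (w1_nonneg j),
      ← ENNReal.ofReal_mul (w2_nonneg j), ← ENNReal.ofReal_add]
    · apply ENNReal.ofReal_le_ofReal
      refine add_le_add ?_ ?_
      · have : wt j * (lvl j / 4) * ((1 - lvl j) / lvl j) = wt j * (1 - lvl j) / 4 := by
          field_simp
        rw [this]
        nlinarith
      · have hx : (1 - (1 - lvl j)) / (1 - lvl j) ≤ 2 * lvl j := by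
          rw [div_le_iff₀ (by linarith)]
          nlinarith
        have h0 : 0 ≤ (1 - (1 - lvl j)) / (1 - lvl j) := div_nonneg (by linarith) (by linarith)
        calc wt j * (1 - lvl j / 4) * ((1 - (1 - lvl j)) / (1 - lvl j))
            ≤ wt j * 1 * (2 * lvl j) := by
              refine mul_le_mul ?_ hx h0 (by nlinarith)
              refine mul_le_mul_of_nonneg_left (by linarith) hw.le
          _ = 2 * (wt j * lvl j) := by ring
    · exact mul_nonneg (w1_nonneg j) (div_nonneg (by linarith) hp.le)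
    · exact mul_nonneg (w2_nonneg j) (div_nonneg (by linarith) (by linarith))
  refine lt_of_le_of_lt (ENNReal.tsum_le_tsum hterm) ?_
  -- the real series
  have hgeo : HasSum (fun j : ℕ => (1 / 6 : ℝ) * ((1 / 2 : ℝ) ^ (j + 1) ) ) (1 / 6) := by
    have h := (hasSum_geometric_of_lt_one (r := (1 / 2 : ℝ)) (by norm_num) (by norm_num))
    have h2 := h.mul_left (1 / 12 : ℝ)
    have e1 : (fun j : ℕ => (1 / 6 : ℝ) * ((1 / 2 : ℝ) ^ (j + 1))) =
        fun j : ℕ => (1 / 12 : ℝ) * (1 / 2 : ℝ) ^ j := by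
      funext j; rw [pow_succ]; ring
    have e2 : (1 / 12 : ℝ) * (1 - 1 / 2)⁻¹ = 1 / 6 := by norm_num
    rw [e1, ← e2]
    exact h2
  have hs : Summable fun j : ℕ => wt j * lvl j :=
    Summable.of_nonneg_of_le (fun j => mul_nonneg (wt_pos j).le (lvl_pos j).le)
      (fun j => by
        have h1 := lvl_le_half j
        have h2 := wt_pos j
        nlinarith [lvl_pos j]) hasSum_wt.summable
  have hbound : ∑' j : ℕ, wt j * lvl j ≤ 1 / 3 := by
    rw [hs.tsum_eq_zero_add]
    have h0 : wt 0 * lvl 0 = 1 / 4 := by unfold wt lvl; norm_num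
    have h1 : ∑' j : ℕ, wt (j + 1) * lvl (j + 1) ≤ ∑' j : ℕ, (1 / 12 : ℝ) * (1 / 2) ^ (j + 1) := by
      refine Summable.tsum_le_tsum (fun j => ?_) ((summable_nat_add_iff 1).2 hs) ?_
      · have hwj : wt (j + 1) ≤ 1 / 6 := by
          unfold wt
          push_cast
          have hj : (0 : ℝ) ≤ j := Nat.cast_nonneg j
          rw [div_le_div_iff₀ (by positivity) (by norm_num)]
          nlinarith
        have hlj : lvl (j + 1) = (1 / 2) * (1 / 2) ^ (j + 1) := by
          unfold lvl; rw [pow_succ]; ring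
        rw [hlj]
        have hpj : (0 : ℝ) < (1 / 2) ^ (j + 1) := by positivity
        nlinarith
      · have := hgeo.summable.mul_left (1 / 2 : ℝ)
        refine this.congr fun j => ?_
        ring
    have h2 : ∑' j : ℕ, (1 / 12 : ℝ) * (1 / 2) ^ (j + 1) = 1 / 12 := by
      have := (hgeo.mul_left (1 / 2 : ℝ)).tsum_eq
      rw [show (1 / 2 : ℝ) * (1 / 6) = 1 / 12 by norm_num] at this
      refine Eq.trans (tsum_congr fun j => ?_) this
      ring
    linarith
  rw [← ENNReal.ofReal_tsum_of_nonneg]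
  · rw [ENNReal.ofReal_lt_one]
    have hsum : ∑' j : ℕ, (wt j / 4 + 2 * (wt j * lvl j)) =
        (∑' j, wt j) / 4 + 2 * ∑' j, wt j * lvl j := by
      rw [Summable.tsum_add (hasSum_wt.summable.div_const 4) (hs.mul_left 2), tsum_div_const,
        tsum_mul_left]
    rw [hsum, hasSum_wt.tsum_eq]
    linarith
  · intro j
    have h1 := wt_pos j
    have h2 := lvl_pos j
    positivity
  · exact (hasSum_wt.summable.div_const 4).add (hs.mul_left 2)

end envLaw

/-! ### The product environment -/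

section product

theorem prob_avoid {N : ℕ} (I : Finset (Fin N)) (a p : ℝ) (hp : 0 ≤ p)
    (ha : ENNReal.ofReal p ≤ envLaw {a}) :
    Measure.pi (fun _ : Fin N => envLaw) {ω | ∀ x ∈ I, ω x ≠ a} ≤
      ENNReal.ofReal (Real.exp (-(p * I.card))) := by
  classical
  have hset : {ω : Fin N → ℝ | ∀ x ∈ I, ω x ≠ a} =
      Set.pi Set.univ (fun x => if x ∈ I then ({a} : Set ℝ)ᶜ else Set.univ) := by
    ext ω
    simp only [Set.mem_ofPred_eq, Set.mem_pi, Set.mem_univ, true_implies]
    refine forall_congr' fun x => ?_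
    by_cases hx : x ∈ I
    · simp [hx]
    · simp [hx]
  rw [hset, Measure.pi_pi]
  have hone : envLaw ({a} : Set ℝ)ᶜ ≤ ENNReal.ofReal (Real.exp (-p)) := by
    rw [prob_compl_eq_one_sub (measurableSet_singleton a)]
    calc 1 - envLaw {a} ≤ 1 - ENNReal.ofReal p := tsub_le_tsub_left ha 1
      _ = ENNReal.ofReal (1 - p) := by rw [ENNReal.ofReal_sub 1 hp, ENNReal.ofReal_one]
      _ ≤ ENNReal.ofReal (Real.exp (-p)) := by
        apply ENNReal.ofReal_le_ofReal
        linarith [Real.add_one_le_exp (-p)]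
  calc ∏ x : Fin N, envLaw (if x ∈ I then ({a} : Set ℝ)ᶜ else Set.univ)
      = ∏ x : Fin N, (if x ∈ I then envLaw ({a} : Set ℝ)ᶜ else 1) := by
        refine Finset.prod_congr rfl fun x _ => ?_
        split_ifs
        · rfl
        · exact measure_univ
    _ = (envLaw ({a} : Set ℝ)ᶜ) ^ I.card := by
        rw [Finset.prod_ite_mem, Finset.univ_inter, Finset.prod_const]
    _ ≤ (ENNReal.ofReal (Real.exp (-p))) ^ I.card := by gcongr
    _ = ENNReal.ofReal (Real.exp (-(p * I.card))) := by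
        rw [← ENNReal.ofReal_pow (Real.exp_pos _).le, ← Real.exp_nat_mul]
        congr 2
        ring

theorem prob_outside {N : ℕ} :
    Measure.pi (fun _ : Fin N => envLaw) {ω | ∃ x, ω x ∉ Set.Ioo (0 : ℝ) 1} = 0 := by
  have hset : {ω : Fin N → ℝ | ∃ x, ω x ∉ Set.Ioo (0 : ℝ) 1} =
      ⋃ x : Fin N, (fun ω : Fin N → ℝ => ω x) ⁻¹' (Set.Ioo (0 : ℝ) 1)ᶜ := by
    ext ω; simp
  rw [hset, measure_iUnion_null_iff]
  intro x
  have hmp := measurePreserving_eval (fun _ : Fin N => envLaw) x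
  have hpre := hmp.measure_preimage (s := (Set.Ioo (0 : ℝ) 1)ᶜ)
    measurableSet_Ioo.compl.nullMeasurableSet
  exact hpre.trans envLaw_compl

/-- Indices in an interval, as a finset of `Fin N`. -/
def window (N a b : ℕ) : Finset (Fin N) :=
  Finset.univ.filter fun i : Fin N => a ≤ (i : ℕ) ∧ (i : ℕ) < b

theorem card_window (N a b : ℕ) : (window N a b).card = min b N - a := card_filter_interval a b

theorem tendsto_gap (s : ℝ) (hs : 0 < s) :
    Tendsto (fun N : ℕ => (N : ℝ) ^ s / (Real.logb 2 N + 2) ^ 2) atTop atTop := by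
  have h1 : Tendsto (fun x : ℝ => (Real.logb 2 x + 2) / x ^ (s / 2)) atTop (𝓝 0) := by
    have ha : Tendsto (fun x : ℝ => Real.log x / x ^ (s / 2)) atTop (𝓝 0) :=
      (isLittleO_log_rpow_atTop (half_pos hs)).tendsto_div_nhds_zero
    have hb : Tendsto (fun x : ℝ => 2 / x ^ (s / 2)) atTop (𝓝 0) :=
      (tendsto_rpow_atTop (half_pos hs)).const_div_atTop 2
    have hc := (ha.const_mul (1 / Real.log 2)).add hb
    rw [mul_zero, add_zero] at hc
    refine hc.congr fun x => ?_
    unfold Real.logb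
    ring
  have h2 : Tendsto (fun x : ℝ => ((Real.logb 2 x + 2) / x ^ (s / 2)) ^ 2) atTop (𝓝[>] 0) := by
    rw [tendsto_nhdsWithin_iff]
    constructor
    · simpa using h1.pow 2
    · filter_upwards [eventually_ge_atTop (1 : ℝ)] with x hx
      have hlog : 0 ≤ Real.logb 2 x := Real.logb_nonneg (by norm_num) hx
      have hxp : 0 < x ^ (s / 2) := Real.rpow_pos_of_pos (by linarith) _
      exact Set.mem_Ioi.2 (by positivity)
  have h3 := h2.inv_tendsto_nhdsGT_zero
  have h4 : Tendsto (fun x : ℝ => x ^ s / (Real.logb 2 x + 2) ^ 2) atTop atTop := by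
    refine h3.congr' ?_
    filter_upwards [eventually_ge_atTop (1 : ℝ)] with x hx
    have hx0 : 0 < x := by linarith
    have hxp : (x ^ (s / 2)) ^ 2 = x ^ s := by
      rw [← Real.rpow_natCast, ← Real.rpow_mul hx0.le]
      norm_num
    rw [Pi.inv_apply, div_pow, hxp, inv_div]
  exact h4.comp tendsto_natCast_atTop_atTop

theorem lvl_le_of (N : ℕ) (hN : 1 ≤ N) (r : ℝ) :
    lvl ⌊r * Real.logb 2 N⌋₊ ≤ (N : ℝ) ^ (-r) := by
  have hN0 : (0 : ℝ) < N := by exact_mod_cast hN
  have hN1 : (1 : ℝ) ≤ N := by exact_mod_cast hN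
  have hfl : r * Real.logb 2 N < (⌊r * Real.logb 2 N⌋₊ : ℝ) + 1 := Nat.lt_floor_add_one _
  have heq : (N : ℝ) ^ (-r) = (2 : ℝ) ^ (-(r * Real.logb 2 N)) := by
    have h2 : (2 : ℝ) ^ Real.logb 2 N = N := Real.rpow_logb (by norm_num) (by norm_num) hN0
    conv_lhs => rw [← h2]
    rw [← Real.rpow_mul (by norm_num)]
    congr 1
    ring
  rw [heq]
  unfold lvl
  rw [one_div, inv_pow, ← Real.rpow_natCast, ← Real.rpow_neg (by norm_num)]
  apply Real.rpow_le_rpow_of_exponent_le (by norm_num)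
  push_cast
  linarith

theorem le_lvl_of (N : ℕ) (hN : 1 ≤ N) (r : ℝ) (hr : 0 ≤ r) :
    (N : ℝ) ^ (-r) / 2 ≤ lvl ⌊r * Real.logb 2 N⌋₊ := by
  have hN0 : (0 : ℝ) < N := by exact_mod_cast hN
  have hN1 : (1 : ℝ) ≤ N := by exact_mod_cast hN
  have hlog : 0 ≤ Real.logb 2 N := Real.logb_nonneg (by norm_num) hN1
  have hfl : (⌊r * Real.logb 2 N⌋₊ : ℝ) ≤ r * Real.logb 2 N := Nat.floor_le (mul_nonneg hr hlog)
  have heq : (N : ℝ) ^ (-r) = (2 : ℝ) ^ (-(r * Real.logb 2 N)) := by
    have h2 : (2 : ℝ) ^ Real.logb 2 N = N := Real.rpow_logb (by norm_num) (by norm_num) hN0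
    conv_lhs => rw [← h2]
    rw [← Real.rpow_mul (by norm_num)]
    congr 1
    ring
  have hle : (2 : ℝ) ^ (-(r * Real.logb 2 N)) ≤ (2 : ℝ) ^ (-(⌊r * Real.logb 2 N⌋₊ : ℝ)) := by
    apply Real.rpow_le_rpow_of_exponent_le (by norm_num)
    linarith
  rw [heq]
  unfold lvl
  rw [one_div, inv_pow, pow_succ, ← Real.rpow_natCast, mul_inv, ← Real.rpow_neg (by norm_num)]
  linarith

theorem le_wt_of (N : ℕ) (hN : 1 ≤ N) (r : ℝ) (hr : 0 ≤ r) (hr3 : r ≤ 3) :
    1 / (9 * (Real.logb 2 N + 2) ^ 2) ≤ wt ⌊r * Real.logb 2 N⌋₊ := by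
  have hN1 : (1 : ℝ) ≤ N := by exact_mod_cast hN
  have hlog : 0 ≤ Real.logb 2 N := Real.logb_nonneg (by norm_num) hN1
  have hfl : (⌊r * Real.logb 2 N⌋₊ : ℝ) ≤ r * Real.logb 2 N := Nat.floor_le (mul_nonneg hr hlog)
  have hfl2 : (⌊r * Real.logb 2 N⌋₊ : ℝ) ≤ 3 * Real.logb 2 N :=
    hfl.trans (mul_le_mul_of_nonneg_right hr3 hlog)
  have hj : (0 : ℝ) ≤ (⌊r * Real.logb 2 N⌋₊ : ℝ) := Nat.cast_nonneg _
  unfold wt
  apply div_le_div_of_nonneg_left (by norm_num) (by positivity)
  nlinarith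

end product

/-- **Main theorem.** There is a ballistic law on `(0,1)` (for i.i.d. environments) such that for
every sequence of particle numbers `k(N)` of positive density of particles and holes and every
exponent `a < 2`, the mixing time exceeds `C N^a` with probability tending to one, for each `C`. -/
theorem main :
    ∃ ν : Measure ℝ, IsProbabilityMeasure ν ∧ ν (Set.Ioo (0 : ℝ) 1)ᶜ = 0 ∧
      ∫⁻ w, ENNReal.ofReal ((1 - w) / w) ∂ν < 1 ∧
      ∀ (k : ℕ → ℕ) (δ : ℝ), 0 < δ →
        (∀ᶠ N : ℕ in atTop, δ * N ≤ k N ∧ (k N : ℝ) ≤ (1 - δ) * N) →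
        ∀ a : ℝ, a < 2 → ∀ C : ℝ,
          Tendsto (fun N : ℕ => Measure.pi (fun _ : Fin N => ν)
            {ω | mixingTime (k N) ω ≤ ENNReal.ofReal (C * (N : ℝ) ^ a)}) atTop (𝓝 0) := by
  refine ⟨envLaw, inferInstance, envLaw_compl, envLaw_ballistic, ?_⟩
  intro k δ hδ hk a ha C
  -- exponents
  set s : ℝ := min ((2 - a) / 2) (1 / 2) with hs
  have hs0 : 0 < s := lt_min (by linarith) (by norm_num)
  have hs1 : s ≤ 1 / 2 := min_le_right _ _
  have hs2 : s ≤ (2 - a) / 2 := min_le_left _ _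
  set a' : ℝ := max a 0 with ha'
  have ha0 : 0 ≤ a' := le_max_right _ _
  have haa : a ≤ a' := le_max_left _ _
  have ha2 : a' < 2 := max_lt ha (by norm_num)
  have hexp : a' - 2 + s < 0 := by
    rcases le_total 0 a with h | h
    · rw [ha', max_eq_left h]; linarith
    · rw [ha', max_eq_right h]; linarith
  set K : ℝ := |C| + 1 with hK
  have hK0 : 0 < K := by positivity
  -- limits
  have hlim1 : Tendsto (fun N : ℕ => ENNReal.ofReal
      (Real.exp (-((δ / 576) * ((N : ℝ) ^ s / (Real.logb 2 N + 2) ^ 2)))) +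
      ENNReal.ofReal
      (Real.exp (-((δ / 576) * ((N : ℝ) ^ s / (Real.logb 2 N + 2) ^ 2))))) atTop (𝓝 0) := by
    have h1 : Tendsto (fun N : ℕ => (δ / 576) * ((N : ℝ) ^ s / (Real.logb 2 N + 2) ^ 2))
        atTop atTop := (tendsto_gap s hs0).const_mul_atTop (by positivity)
    have h2 := Real.tendsto_exp_neg_atTop_nhds_zero.comp h1
    have h3 := ENNReal.tendsto_ofReal h2
    have h4 := h3.add h3
    simpa using h4
  have hlim2 : Tendsto (fun N : ℕ => K * (N : ℝ) ^ (a' - 3) + K * (2 / δ) *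
      (N : ℝ) ^ (a' - 2 + s)) atTop (𝓝 0) := by
    have e1 : Tendsto (fun N : ℕ => (N : ℝ) ^ (a' - 3)) atTop (𝓝 0) := by
      have := (tendsto_rpow_neg_atTop (y := 3 - a') (by linarith)).comp
        (tendsto_natCast_atTop_atTop (R := ℝ))
      refine this.congr fun N => ?_
      simp only [Function.comp_apply]
      congr 1
      ring
    have e2 : Tendsto (fun N : ℕ => (N : ℝ) ^ (a' - 2 + s)) atTop (𝓝 0) := by
      have := (tendsto_rpow_neg_atTop (y := -(a' - 2 + s)) (by linarith)).comp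
        (tendsto_natCast_atTop_atTop (R := ℝ))
      refine this.congr fun N => ?_
      simp only [Function.comp_apply]
      congr 1
      ring
    have := (e1.const_mul K).add (e2.const_mul (K * (2 / δ)))
    simpa using this
  refine tendsto_of_tendsto_of_tendsto_of_le_of_le' tendsto_const_nhds hlim1
    (Eventually.of_forall fun N => zero_le) ?_
  have hlarge : ∀ᶠ N : ℕ in atTop, (8 : ℝ) ≤ δ * N := by
    have h1 : Tendsto (fun N : ℕ => δ * (N : ℝ)) atTop atTop :=
      tendsto_natCast_atTop_atTop.const_mul_atTop hδ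
    exact h1.eventually_ge_atTop 8
  filter_upwards [hk, hlarge, hlim2.eventually (gt_mem_nhds (show (0 : ℝ) < 1 / 2 by norm_num)),
    eventually_ge_atTop 1] with N hkN hN8 hN2 hN1
  have hN0 : (0 : ℝ) < N := by exact_mod_cast hN1
  have hN1' : (1 : ℝ) ≤ N := by exact_mod_cast hN1
  have hkle : k N ≤ N := by
    have : (k N : ℝ) ≤ N := hkN.2.trans (by nlinarith)
    exact_mod_cast this
  set m : ℕ := min (k N) (N - k N) with hm
  have hmδ : δ * N ≤ m := by
    rw [hm, Nat.cast_min, Nat.cast_sub hkle]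
    refine le_min hkN.1 ?_
    linarith [hkN.2]
  have hm8 : 8 ≤ m := by
    have : (8 : ℝ) ≤ m := hN8.trans hmδ
    exact_mod_cast this
  -- the windows
  set I1 := window N (N / 2 - m / 4) (N / 2) with hI1
  set I2 := window N (N / 2) (N / 2 + m / 4) with hI2
  have hmk : m ≤ k N := min_le_left _ _
  have hmN : m ≤ N - k N := min_le_right _ _
  have hc1 : I1.card = m / 4 := by rw [hI1, card_window]; omega
  have hc2 : I2.card = m / 4 := by rw [hI2, card_window]; omega
  have hm4 : δ * N / 8 ≤ ((m / 4 : ℕ) : ℝ) := by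
    have h1 : m ≤ 4 * (m / 4) + 3 := by omega
    have h2 : (m : ℝ) ≤ 4 * ((m / 4 : ℕ) : ℝ) + 3 := by exact_mod_cast h1
    linarith
  -- the levels
  set j1 : ℕ := ⌊(1 - s) * Real.logb 2 N⌋₊ with hj1
  set j2 : ℕ := ⌊(3 : ℝ) * Real.logb 2 N⌋₊ with hj2
  have hl1 : lvl j1 ≤ (N : ℝ) ^ (-(1 - s)) := lvl_le_of N hN1 (1 - s)
  have hl1' : (N : ℝ) ^ (-(1 - s)) / 2 ≤ lvl j1 := le_lvl_of N hN1 (1 - s) (by linarith)
  have hl2 : lvl j2 ≤ (N : ℝ) ^ (-(3 : ℝ)) := lvl_le_of N hN1 3
  have hw1 : 1 / (9 * (Real.logb 2 N + 2) ^ 2) ≤ wt j1 :=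
    le_wt_of N hN1 (1 - s) (by linarith) (by linarith)
  have hw2 : 1 / (9 * (Real.logb 2 N + 2) ^ 2) ≤ wt j2 :=
    le_wt_of N hN1 3 (by norm_num) le_rfl
  have hlog : 0 ≤ Real.logb 2 N := Real.logb_nonneg (by norm_num) hN1'
  set L : ℝ := (Real.logb 2 N + 2) ^ 2 with hL
  have hL0 : 0 < L := by positivity
  -- lower bounds for the exponents
  have hNs : (N : ℝ) * (N : ℝ) ^ (-(1 - s)) = (N : ℝ) ^ s := by
    rw [← Real.rpow_one_add' hN0.le (by linarith)]
    congr 1
    ring
  have hNs1 : (N : ℝ) ^ s ≤ N := by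
    calc (N : ℝ) ^ s ≤ (N : ℝ) ^ (1 : ℝ) :=
          Real.rpow_le_rpow_of_exponent_le hN1' (by linarith)
      _ = N := Real.rpow_one _
  have hE1 : (δ / 576) * ((N : ℝ) ^ s / L) ≤ (wt j1 * (lvl j1 / 4)) * (I1.card : ℝ) := by
    rw [hc1]
    have hNm : 0 < (N : ℝ) ^ (-(1 - s)) := Real.rpow_pos_of_pos hN0 _
    have h1 : 1 / (9 * L) * ((N : ℝ) ^ (-(1 - s)) / 2 / 4) ≤ wt j1 * (lvl j1 / 4) := by
      refine mul_le_mul hw1 (by linarith) (by positivity) (wt_pos j1).le
    have h2 : (1 / (9 * L) * ((N : ℝ) ^ (-(1 - s)) / 2 / 4)) * (δ * N / 8) ≤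
        (wt j1 * (lvl j1 / 4)) * ((m / 4 : ℕ) : ℝ) :=
      mul_le_mul h1 hm4 (by positivity) (w1_nonneg j1)
    refine le_trans (le_of_eq ?_) h2
    rw [← hNs]
    field_simp
    ring
  have hE2 : (δ / 576) * ((N : ℝ) ^ s / L) ≤ (wt j2 * (1 - lvl j2 / 4)) * (I2.card : ℝ) := by
    rw [hc2]
    have h1 : 1 / (9 * L) * (1 / 2) ≤ wt j2 * (1 - lvl j2 / 4) := by
      refine mul_le_mul hw2 (by linarith [lvl_le_half j2]) (by positivity) (wt_pos j2).le
    have h2 : (1 / (9 * L) * (1 / 2)) * (δ * N / 8) ≤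
        (wt j2 * (1 - lvl j2 / 4)) * ((m / 4 : ℕ) : ℝ) :=
      mul_le_mul h1 hm4 (by positivity) (w2_nonneg j2)
    refine le_trans ?_ h2
    have h3 : (δ / 576) * ((N : ℝ) ^ s / L) ≤ (δ / 576) * ((N : ℝ) / L) := by
      gcongr
    refine h3.trans ?_
    have h4 : (1 / (9 * L) * (1 / 2)) * (δ * N / 8) = (δ / 144) * ((N : ℝ) / L) := by
      field_simp
      ring
    rw [h4]
    have h5 : 0 ≤ (N : ℝ) / L := by positivity
    nlinarith
  -- the bad event
  have hsub : {ω : Fin N → ℝ | mixingTime (k N) ω ≤ ENNReal.ofReal (C * (N : ℝ) ^ a)} ⊆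
      {ω | ∃ x, ω x ∉ Set.Ioo (0 : ℝ) 1} ∪
      ({ω | ∀ x ∈ I1, ω x ≠ lvl j1} ∪ {ω | ∀ x ∈ I2, ω x ≠ 1 - lvl j2}) := by
    intro ω hω
    by_contra hnot
    simp only [Set.mem_union, not_or, Set.mem_ofPred_eq, not_exists, not_not, not_forall,
      exists_prop] at hnot
    obtain ⟨hin, ⟨x, hxI, hx⟩, ⟨y, hyI, hy⟩⟩ := hnot
    have h0 : ∀ z, 0 ≤ ω z := fun z => (hin z).1.le
    have h1 : ∀ z, ω z ≤ 1 := fun z => (hin z).2.le
    simp only [hI1, hI2, window, Finset.mem_filter, Finset.mem_univ, true_and] at hxI hyI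
    have hTpos : 0 ≤ K * (N : ℝ) ^ a' := by positivity
    set T : ℝ≥0 := ⟨K * (N : ℝ) ^ a', hTpos⟩ with hTdef
    have hTv : (T : ℝ) = K * (N : ℝ) ^ a' := rfl
    have hkey : (T : ℝ) * ((1 - ω y) + ω x / ((m : ℝ) / 2)) < 1 / 2 := by
      rw [hTv, hx, hy]
      have hmpos : (0 : ℝ) < m := lt_of_lt_of_le (by positivity) hmδ
      have e1 : 1 - (1 - lvl j2) ≤ (N : ℝ) ^ (-(3 : ℝ)) := by linarith
      have e2 : lvl j1 / ((m : ℝ) / 2) ≤ (2 / δ) * ((N : ℝ) ^ (-(1 - s)) / N) := by
        have : lvl j1 / ((m : ℝ) / 2) ≤ (N : ℝ) ^ (-(1 - s)) / ((δ * N) / 2) := by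
          refine div_le_div₀ (by positivity) hl1 (by positivity) (by linarith)
        refine this.trans (le_of_eq ?_)
        field_simp
      have e3 : (N : ℝ) ^ a' * (N : ℝ) ^ (-(3 : ℝ)) = (N : ℝ) ^ (a' - 3) := by
        rw [← Real.rpow_add hN0]; congr 1
      have e4 : (N : ℝ) ^ a' * ((N : ℝ) ^ (-(1 - s)) / N) = (N : ℝ) ^ (a' - 2 + s) := by
        have : (N : ℝ) ^ (-(1 - s)) / N = (N : ℝ) ^ (-(1 - s) - 1) := by
          rw [Real.rpow_sub_one hN0.ne']
        rw [this, ← Real.rpow_add hN0]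
        congr 1
        ring
      have hNa : 0 < (N : ℝ) ^ a' := Real.rpow_pos_of_pos hN0 _
      calc K * (N : ℝ) ^ a' * (1 - (1 - lvl j2) + lvl j1 / ((m : ℝ) / 2))
          ≤ K * (N : ℝ) ^ a' * ((N : ℝ) ^ (-(3 : ℝ)) + (2 / δ) * ((N : ℝ) ^ (-(1 - s)) / N)) := by
            refine mul_le_mul_of_nonneg_left (by linarith) (by positivity)
        _ = K * ((N : ℝ) ^ a' * (N : ℝ) ^ (-(3 : ℝ))) +
              K * (2 / δ) * ((N : ℝ) ^ a' * ((N : ℝ) ^ (-(1 - s)) / N)) := by ring
        _ = K * (N : ℝ) ^ (a' - 3) + K * (2 / δ) * (N : ℝ) ^ (a' - 2 + s) := by rw [e3, e4]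
        _ < 1 / 2 := hN2
    have hle := le_mixingTime (k := k N) ω h0 h1 m (by omega) hmk hmN hkle x y hxI.1 hxI.2
      hyI.1 hyI.2.le T hkey
    have hcontra : (T : ℝ≥0∞) ≤ ENNReal.ofReal (C * (N : ℝ) ^ a) := hle.trans hω
    have hTreal : (T : ℝ≥0∞) = ENNReal.ofReal (K * (N : ℝ) ^ a') := by
      rw [ENNReal.ofReal, Real.toNNReal_of_nonneg hTpos]
      rfl
    rw [hTreal] at hcontra
    have hlt : C * (N : ℝ) ^ a < K * (N : ℝ) ^ a' := by
      have h1 : (N : ℝ) ^ a ≤ (N : ℝ) ^ a' := Real.rpow_le_rpow_of_exponent_le hN1' haa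
      have h2 : 0 < (N : ℝ) ^ a' := Real.rpow_pos_of_pos hN0 _
      have h3 : 0 < (N : ℝ) ^ a := Real.rpow_pos_of_pos hN0 _
      have h4 : C ≤ |C| := le_abs_self C
      have h5 : C * (N : ℝ) ^ a ≤ |C| * (N : ℝ) ^ a' :=
        mul_le_mul h4 h1 h3.le (abs_nonneg C)
      have h6 : K * (N : ℝ) ^ a' = |C| * (N : ℝ) ^ a' + (N : ℝ) ^ a' := by rw [hK]; ring
      linarith
    have hKpos : 0 < K * (N : ℝ) ^ a' := mul_pos hK0 (Real.rpow_pos_of_pos hN0 _)
    exact absurd hcontra (not_le.2 ((ENNReal.ofReal_lt_ofReal_iff hKpos).2 hlt))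
  refine (measure_mono hsub).trans ?_
  refine (measure_union_le _ _).trans ?_
  rw [prob_outside, zero_add]
  refine (measure_union_le _ _).trans ?_
  refine add_le_add ?_ ?_
  · refine (prob_avoid I1 (lvl j1) _ (w1_nonneg j1) (envLaw_slow j1)).trans ?_
    apply ENNReal.ofReal_le_ofReal
    apply Real.exp_le_exp.2
    linarith
  · refine (prob_avoid I2 (1 - lvl j2) _ (w2_nonneg j2) (envLaw_door j2)).trans ?_
    apply ENNReal.ofReal_le_ofReal
    apply Real.exp_le_exp.2
    linarith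

end Pool.Agent.H96.Exclusion
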